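import Mathlib
import Pool.Agent.H24.FD.P5

/-!
# MP_1f2761, k = 2: row PQ2 (base 2 levels of the windows)
-/

set_option autoImplicit false

open Finset

namespace Pool.Agent.H24.FD

/-- row PQ2 (from BSW, ATY, MARG, ONN) -/
theorem pq2 (hB : BSWStmt) (hA : ATYStmt) (hM : MARGStmt) (hO : ONNStmt) : PQ2Stmt := by
  intro q hq e T m g θ wm he hm hg hθ hθ1 hMK
  have heb : (0 : ℝ) < eb := by
    unfold eb
    norm_num
  have hq2 : 2 ≤ q := by omega
  obtain ⟨l₁, hA⟩ := hA eb heb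
  obtain ⟨l₂, hM⟩ := hM eb heb
  -- the probability of an atypical macro-digit tends to zero
  have hlim : Filter.Tendsto (fun l : ℕ => 2 * Real.exp (-(2 * eb ^ 2 * (l : ℝ))))
      Filter.atTop (nhds (2 * 0)) := by
    refine Filter.Tendsto.const_mul 2 ?_
    refine Real.tendsto_exp_neg_atTop_nhds_zero.comp ?_
    exact Filter.Tendsto.const_mul_atTop (by positivity) tendsto_natCast_atTop_atTop
  rw [mul_zero] at hlim
  obtain ⟨l₃, hl₃⟩ := Filter.eventually_atTop.mp
    (hlim.eventually (gt_mem_nhds (show (0 : ℝ) < e / 2 by linarith)))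
  obtain ⟨l₄, hl₄⟩ := exists_nat_gt (1 / (1600 * e))
  refine ⟨l₁ + l₂ + l₃ + l₄ + 1, ?_⟩
  intro l hl W hW
  obtain ⟨ha0, ha1⟩ := hA l (by omega)
  have ha2 : atyp eb l ≤ e / 2 := le_trans ha1 (hl₃ l (by omega)).le
  have hMl := hM l (by omega)
  have hl0 : 0 < l := by omega
  have hWn : l * l * (3200 + T) = W := hW.symm
  refine ⟨fun _ => (l : ℝ) + (l : ℝ) * l * ((3200 + T : ℕ) : ℝ) * atyp eb l, ?_, 0, ?_⟩
  · intro J x
    have h1 := hB q l l (3200 + T) (J + W) (omW q m g (t1 θ l) wm (l * l) 3200 (J + W)) hMl hl0 hl0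
      (hO q m g (t1 θ l) (l * l) 3200 (J + W) kk wm hq2 hg hMK) (by rw [hWn]; omega) x
    rw [hWn, Nat.add_sub_cancel] at h1
    exact h1
  · intro K _ J
    rw [Finset.sum_const, Finset.card_range, nsmul_eq_mul]
    have hd : dens q 2 = 0 := by
      unfold dens
      rw [if_pos rfl]
    rw [hd, zero_add]
    have hWR : (W : ℝ) = (l : ℝ) * l * ((3200 + T : ℕ) : ℝ) := by
      rw [hW]
      push_cast
      ring
    rw [← hWR]
    have hW0 : (0 : ℝ) ≤ W := Nat.cast_nonneg _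
    have h2 : (W : ℝ) * atyp eb l ≤ W * (e / 2) := mul_le_mul_of_nonneg_left ha2 hW0
    have hl1 : (1 : ℝ) / (1600 * e) ≤ l := by
      refine le_trans hl₄.le ?_
      exact_mod_cast (show l₄ ≤ l by omega)
    have hl2 : 1 ≤ (l : ℝ) * (1600 * e) := by
      rwa [div_le_iff₀ (by positivity)] at hl1
    have hlp : (0 : ℝ) ≤ l := Nat.cast_nonneg _
    have hT0 : (3200 : ℝ) ≤ ((3200 + T : ℕ) : ℝ) := by
      push_cast
      have : (0 : ℝ) ≤ T := Nat.cast_nonneg _
      linarith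
    have h3 : (l : ℝ) ≤ W * (e / 2) := by
      have h4 : (l : ℝ) * l * 3200 ≤ W := by
        rw [hWR]
        exact mul_le_mul_of_nonneg_left hT0 (by positivity)
      have h5 : (l : ℝ) * l * 3200 * (e / 2) ≤ W * (e / 2) :=
        mul_le_mul_of_nonneg_right h4 (by linarith)
      have h6 : (l : ℝ) * 1 ≤ (l : ℝ) * ((l : ℝ) * (1600 * e)) :=
        mul_le_mul_of_nonneg_left hl2 hlp
      nlinarith
    have hK : (0 : ℝ) ≤ K := Nat.cast_nonneg _
    have h7 : (l : ℝ) + W * atyp eb l ≤ e * W := by linarith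
    calc (K : ℝ) * ((l : ℝ) + W * atyp eb l) ≤ K * (e * W) := mul_le_mul_of_nonneg_left h7 hK
      _ = e * (K * W) := by ring

end Pool.Agent.H24.FD
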